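import Pool.Agent.W544.FF.Defs

/-! # The classes in `algD` are killed by skew operators with zero block traces -/

set_option autoImplicit false

open Matrix Finset Module

namespace Pool.Agent.W863.FF

open Pool.Agent.W544.PG Pool.Agent.W544.FF

namespace CND

lemma sum_split {K : Type} [AddCommMonoid K] {m : ℕ} (σ : Fin m → Fin m)
    (hσ : ∀ j, σ (σ j) = j) (h : Fin m → K) :
    ∑ j, h j = (∑ j with σ j = j, h j) + ∑ j with j < σ j, (h j + h (σ j)) := by
  rw [← Finset.sum_filter_add_sum_filter_not univ (fun j => σ j = j) h]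
  congr 1
  rw [Finset.sum_add_distrib,
    ← Finset.sum_filter_add_sum_filter_not (univ.filter fun j => ¬ σ j = j) (fun j => j < σ j) h]
  congr 1
  · apply Finset.sum_congr _ fun _ _ => rfl
    ext j
    simp only [mem_filter, mem_univ, true_and]
    exact ⟨fun h => h.2, fun h => ⟨fun h' => by rw [h'] at h; exact lt_irrefl _ h, h⟩⟩
  · symm
    apply Finset.sum_nbij' σ σ
    · intro j hj
      simp only [mem_filter, mem_univ, true_and] at hj ⊢
      rw [hσ]
      refine ⟨fun h' => ?_, fun h' => ?_⟩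
      · rw [← h'] at hj
        exact lt_irrefl _ hj
      · exact lt_asymm hj h'
    · intro j hj
      simp only [mem_filter, mem_univ, true_and] at hj ⊢
      rw [hσ]
      exact lt_of_le_of_ne (not_lt.1 hj.2) hj.1
    · intro j _
      exact hσ j
    · intro j _
      exact hσ j
    · intro j _
      rfl

lemma det_row {K : Type} [CommRing K] {ι : Type} [Fintype ι] [DecidableEq ι]
    (M : Matrix ι ι K) (x : ι) (r : ι → K) :
    (M.updateRow x r).det = ∑ j, M.adjugate j x * r j := by
  rw [← Matrix.cramer_transpose_apply, Matrix.cramer_eq_adjugate_mulVec,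
    ← Matrix.adjugate_transpose]
  rfl

lemma adj_sum {K : Type} [CommRing K] {ι : Type} [Fintype ι] [DecidableEq ι]
    (M N : Matrix ι ι K) :
    ∑ x, ∑ j, M.adjugate j x * (M * N) x j = M.det * N.trace := by
  have h : ∑ x, ∑ j, M.adjugate j x * (M * N) x j = (M.adjugate * (M * N)).trace := by
    rw [Matrix.trace, Finset.sum_comm]
    rfl
  rw [h, ← Matrix.mul_assoc, Matrix.adjugate_mul, Matrix.smul_mul, Matrix.one_mul,
    Matrix.trace_smul, smul_eq_mul]

variable {K : Type} [Field K] {n r s m : ℕ}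

/-- the matrix of the determinant form -/
def MM (K : Type) [Field K] (c : Fin n → Fin r) (S : Finset (Fin r))
    (g : {b : Fin n // c b ∈ S} → Fin m) (J : Fin m → Fin s ⊕ Fin n) :
    Matrix {b : Fin n // c b ∈ S} {b : Fin n // c b ∈ S} K :=
  Matrix.of fun x y => if c y.1 = c x.1 ∧ J (g x) = Sum.inr y.1 then (1 : K) else 0

lemma dt_update (c : Fin n → Fin r) (S : Finset (Fin r)) (g : {b : Fin n // c b ∈ S} → Fin m)
    (hg : Function.Injective g) (J : Fin m → Fin s ⊕ Fin n) (x : {b : Fin n // c b ∈ S})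
    (l : Fin s ⊕ Fin n) :
    (dt c S Sum.inr g (Function.update J (g x) l) : K) =
      ((MM K c S g J).updateRow x
        (fun y => if c y.1 = c x.1 ∧ l = Sum.inr y.1 then (1 : K) else 0)).det := by
  unfold dt
  congr 1
  ext a b
  rw [Matrix.updateRow_apply, Matrix.of_apply]
  by_cases h : a = x
  · subst h
    rw [if_pos rfl, Function.update_self]
  · rw [if_neg h, Function.update_of_ne (fun h' => h (hg h'))]
    rfl

lemma row (c : Fin n → Fin r) (S : Finset (Fin r)) (g : {b : Fin n // c b ∈ S} → Fin m)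
    (J : Fin m → Fin s ⊕ Fin n) {y : Matrix (Fin n) (Fin n) K} (hy : BD c y)
    (x z : {b : Fin n // c b ∈ S}) :
    ∑ l, (fromBlocks 0 0 0 y : Matrix (Fin s ⊕ Fin n) (Fin s ⊕ Fin n) K) l (J (g x)) *
      (if c z.1 = c x.1 ∧ l = Sum.inr z.1 then (1 : K) else 0) =
    (MM K c S g J * Matrix.of fun u v : {b : Fin n // c b ∈ S} => y v.1 u.1) x z := by
  have h1 : ∑ l, (fromBlocks 0 0 0 y : Matrix (Fin s ⊕ Fin n) (Fin s ⊕ Fin n) K) l (J (g x)) *
      (if c z.1 = c x.1 ∧ l = Sum.inr z.1 then (1 : K) else 0) =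
      if c z.1 = c x.1 then
        (fromBlocks 0 0 0 y : Matrix (Fin s ⊕ Fin n) (Fin s ⊕ Fin n) K) (Sum.inr z.1) (J (g x))
      else 0 := by
    by_cases h : c z.1 = c x.1
    · rw [if_pos h]
      rw [Finset.sum_eq_single (Sum.inr z.1)]
      · rw [if_pos ⟨h, rfl⟩, mul_one]
      · intro l _ hl
        rw [if_neg (fun h' => hl h'.2), mul_zero]
      · intro h'
        exact absurd (mem_univ _) h'
    · rw [if_neg h]
      refine Finset.sum_eq_zero fun l _ => ?_
      rw [if_neg (fun h' => h h'.1), mul_zero]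
  rw [h1, Matrix.mul_apply]
  unfold MM
  simp only [Matrix.of_apply]
  rcases hJ : J (g x) with w | w
  · rw [Matrix.fromBlocks_apply₂₁]
    simp
  · have e0 : (fromBlocks 0 0 0 y : Matrix (Fin s ⊕ Fin n) (Fin s ⊕ Fin n) K) (Sum.inr z.1)
        (Sum.inr w) = y z.1 w := rfl
    rw [e0]
    by_cases hw : c w = c x.1
    · have hwS : c w ∈ S := by rw [hw]; exact x.2
      have hR : ∑ u : {b : Fin n // c b ∈ S},
          (if c u.1 = c x.1 ∧ (Sum.inr w : Fin s ⊕ Fin n) = Sum.inr u.1 then (1 : K) else 0) *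
            y z.1 u.1 = y z.1 w := by
        rw [Finset.sum_eq_single (⟨w, hwS⟩ : {b : Fin n // c b ∈ S})]
        · have hc : c (⟨w, hwS⟩ : {b : Fin n // c b ∈ S}).1 = c x.1 ∧
              (Sum.inr w : Fin s ⊕ Fin n) = Sum.inr (⟨w, hwS⟩ : {b : Fin n // c b ∈ S}).1 :=
            ⟨hw, rfl⟩
          rw [if_pos hc, one_mul]
        · intro u _ hu
          rw [if_neg, zero_mul]
          rintro ⟨-, h'⟩
          exact hu (Subtype.ext (Sum.inr_injective h').symm)
        · intro h'
          exact absurd (mem_univ _) h'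
      rw [hR]
      by_cases h : c z.1 = c x.1
      · rw [if_pos h]
      · rw [if_neg h]
        exact (hy _ _ (fun h' => h (h'.trans hw))).symm
    · have hR : ∑ u : {b : Fin n // c b ∈ S},
          (if c u.1 = c x.1 ∧ (Sum.inr w : Fin s ⊕ Fin n) = Sum.inr u.1 then (1 : K) else 0) *
            y z.1 u.1 = 0 := by
        refine Finset.sum_eq_zero fun u _ => ?_
        rw [if_neg, zero_mul]
        rintro ⟨h', h''⟩
        rw [← Sum.inr_injective h''] at h'
        exact hw h'
      rw [hR]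
      by_cases h : c z.1 = c x.1
      · rw [if_pos h]
        exact hy _ _ (fun h' => hw (h'.symm.trans h))
      · rw [if_neg h]

lemma dt_sum (c : Fin n → Fin r) (S : Finset (Fin r)) (g : {b : Fin n // c b ∈ S} → Fin m)
    (hg : Function.Injective g) (J : Fin m → Fin s ⊕ Fin n) {y : Matrix (Fin n) (Fin n) K}
    (hy : BD c y) (h0 : ∀ i, ∑ b with c b = i, y b b = 0) :
    ∑ x, ∑ l, (fromBlocks 0 0 0 y : Matrix (Fin s ⊕ Fin n) (Fin s ⊕ Fin n) K) l (J (g x)) *
      (dt c S Sum.inr g (Function.update J (g x) l) : K) = 0 := by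
  have h1 : ∀ x, ∑ l, (fromBlocks 0 0 0 y : Matrix (Fin s ⊕ Fin n) (Fin s ⊕ Fin n) K) l
        (J (g x)) * (dt c S Sum.inr g (Function.update J (g x) l) : K) =
      ∑ z, (MM K c S g J).adjugate z x *
        (MM K c S g J * Matrix.of fun u v : {b : Fin n // c b ∈ S} => y v.1 u.1) x z := by
    intro x
    simp only [dt_update c S g hg J x, det_row, Finset.mul_sum]
    rw [Finset.sum_comm]
    refine Finset.sum_congr rfl fun z _ => ?_
    rw [← row c S g J hy x z, Finset.mul_sum]
    refine Finset.sum_congr rfl fun l _ => ?_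
    ring
  rw [Finset.sum_congr rfl fun x _ => h1 x, adj_sum]
  have h2 : (Matrix.of fun u v : {b : Fin n // c b ∈ S} => y v.1 u.1).trace = 0 := by
    have h3 : (Matrix.of fun u v : {b : Fin n // c b ∈ S} => y v.1 u.1).trace =
        ∑ u : {b : Fin n // c b ∈ S}, y u.1 u.1 := rfl
    rw [h3, ← Finset.sum_subtype (univ.filter fun b => c b ∈ S) (by simp) (fun b => y b b)]
    rw [← Finset.sum_fiberwise_of_maps_to (s := univ.filter fun b => c b ∈ S) (t := S)
      (g := c) (fun b hb => (Finset.mem_filter.1 hb).2)]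
    refine Finset.sum_eq_zero fun i hi => ?_
    rw [Finset.filter_filter, ← h0 i]
    refine Finset.sum_congr ?_ fun _ _ => rfl
    ext b
    simp only [mem_filter, mem_univ, true_and]
    exact ⟨fun h => h.2, fun h => ⟨by rw [h]; exact hi, h⟩⟩
  rw [h2, mul_zero]

/-- the pairing is killed -/
lemma pairing (c : Fin n → Fin r) (d : Fin s → Fin r) (Q y : Matrix (Fin n) (Fin n) K)
    (hy : BD c y) (hs : yᵀ * Q + Q * y = 0) (a : Fin r) (u v : Fin s ⊕ Fin n) :
    (∑ l, (fromBlocks 0 0 0 y : Matrix (Fin s ⊕ Fin n) (Fin s ⊕ Fin n) K) l u *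
      (if Sum.elim d c l = a then
        (fromBlocks 0 0 0 Q : Matrix (Fin s ⊕ Fin n) (Fin s ⊕ Fin n) K) l v else 0)) +
    (∑ l, (fromBlocks 0 0 0 y : Matrix (Fin s ⊕ Fin n) (Fin s ⊕ Fin n) K) l v *
      (if Sum.elim d c u = a then
        (fromBlocks 0 0 0 Q : Matrix (Fin s ⊕ Fin n) (Fin s ⊕ Fin n) K) u l else 0)) = 0 := by
  have z1 : ∀ (l : Fin s ⊕ Fin n) (w : Fin s),
      (fromBlocks 0 0 0 y : Matrix (Fin s ⊕ Fin n) (Fin s ⊕ Fin n) K) l (Sum.inl w) = 0 := by
    intro l w
    rcases l with l | l <;> rfl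
  have z2 : ∀ (l : Fin s ⊕ Fin n) (w : Fin s),
      (fromBlocks 0 0 0 Q : Matrix (Fin s ⊕ Fin n) (Fin s ⊕ Fin n) K) l (Sum.inl w) = 0 := by
    intro l w
    rcases l with l | l <;> rfl
  have z3 : ∀ (l : Fin s ⊕ Fin n) (w : Fin s),
      (fromBlocks 0 0 0 Q : Matrix (Fin s ⊕ Fin n) (Fin s ⊕ Fin n) K) (Sum.inl w) l = 0 := by
    intro l w
    rcases l with l | l <;> rfl
  rcases u with u | u
  · rw [Finset.sum_eq_zero fun l _ => by rw [z1, zero_mul],
      Finset.sum_eq_zero fun l _ => by rw [z3, ite_self, mul_zero], add_zero]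
  rcases v with v | v
  · rw [Finset.sum_eq_zero fun l _ => by rw [z2, ite_self, mul_zero],
      Finset.sum_eq_zero fun l _ => by rw [z1, zero_mul], add_zero]
  have hs1 : ∑ x, y x u * Q x v + ∑ x, Q u x * y x v = 0 := congrFun (congrFun hs u) v
  have key : (∑ x, y x u * (if c x = a then Q x v else 0)) +
      (∑ x, y x v * (if c u = a then Q u x else 0)) = 0 := by
    by_cases h : c u = a
    · have e1 : ∀ x, y x u * (if c x = a then Q x v else 0) = y x u * Q x v := by
        intro x
        by_cases hx : c x = a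
        · rw [if_pos hx]
        · rw [if_neg hx, hy x u (fun h' => hx (h'.trans h)), zero_mul, zero_mul]
      have e2 : ∀ x, y x v * (if c u = a then Q u x else 0) = Q u x * y x v := by
        intro x
        rw [if_pos h, mul_comm]
      rw [Finset.sum_congr rfl fun x _ => e1 x, Finset.sum_congr rfl fun x _ => e2 x]
      exact hs1
    · have e1 : ∀ x, y x u * (if c x = a then Q x v else 0) = 0 := by
        intro x
        by_cases hx : c x = a
        · rw [hy x u (fun h' => h (h'.symm.trans hx)), zero_mul]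
        · rw [if_neg hx, mul_zero]
      have e2 : ∀ x, y x v * (if c u = a then Q u x else 0) = 0 := by
        intro x
        rw [if_neg h, mul_zero]
      rw [Finset.sum_eq_zero fun x _ => e1 x, Finset.sum_eq_zero fun x _ => e2 x, add_zero]
  rw [Fintype.sum_sum_type, Fintype.sum_sum_type]
  have f1 : ∑ w : Fin s, (fromBlocks 0 0 0 y : Matrix (Fin s ⊕ Fin n) (Fin s ⊕ Fin n) K)
      (Sum.inl w) (Sum.inr u) * (if Sum.elim d c (Sum.inl w : Fin s ⊕ Fin n) = a then
        (fromBlocks 0 0 0 Q : Matrix (Fin s ⊕ Fin n) (Fin s ⊕ Fin n) K) (Sum.inl w)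
          (Sum.inr v) else 0) = 0 := Finset.sum_eq_zero fun w _ => by rw [z3, ite_self, mul_zero]
  have f2 : ∑ w : Fin s, (fromBlocks 0 0 0 y : Matrix (Fin s ⊕ Fin n) (Fin s ⊕ Fin n) K)
      (Sum.inl w) (Sum.inr v) * (if Sum.elim d c (Sum.inr u : Fin s ⊕ Fin n) = a then
        (fromBlocks 0 0 0 Q : Matrix (Fin s ⊕ Fin n) (Fin s ⊕ Fin n) K) (Sum.inr u)
          (Sum.inl w) else 0) = 0 := Finset.sum_eq_zero fun w _ => by rw [z2, ite_self, mul_zero]
  rw [f1, f2, zero_add, zero_add]
  exact key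

lemma dt_other (c : Fin n → Fin r) (S : Finset (Fin r)) (g : {b : Fin n // c b ∈ S} → Fin m)
    (J : Fin m → Fin s ⊕ Fin n) (j : Fin m) (hj : ∀ b, g b ≠ j) (l : Fin s ⊕ Fin n) :
    (dt c S Sum.inr g (Function.update J j l) : K) = dt c S Sum.inr g J := by
  unfold dt
  congr 1
  ext a b
  rw [Matrix.of_apply, Matrix.of_apply, Function.update_of_ne (hj a)]

lemma gen (c : Fin n → Fin r) (d : Fin s → Fin r) (a : Fin m → Fin r)
    (Q y : Matrix (Fin n) (Fin n) K) (hy : BD c y) (hs : yᵀ * Q + Q * y = 0)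
    (h0 : ∀ i, ∑ b with c b = i, y b b = 0) (t : (Fin m → Fin s ⊕ Fin n) → K)
    (σ : Fin m → Fin m) (ν : Fin m → Fin s → K) (S : Finset (Fin r))
    (g : {b : Fin n // c b ∈ S} → Fin m) (hσ : ∀ j, σ (σ j) = j) (hg : Function.Injective g)
    (hσg : ∀ b, σ (g b) = g b)
    (ht : ∀ J, t J = (∏ j with σ j = j ∧ ∀ b, g b ≠ j, Sum.elim (ν j) (fun _ => 0) (J j)) *
      (∏ j with j < σ j,
        if Sum.elim d c (J j) = a j then Matrix.fromBlocks 0 0 0 Q (J j) (J (σ j)) else 0) *
      dt c S Sum.inr g J) :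
    actK (fromBlocks 0 0 0 y) t = 0 := by
  classical
  funext J
  show ∑ j, ∑ l, (fromBlocks 0 0 0 y : Matrix (Fin s ⊕ Fin n) (Fin s ⊕ Fin n) K) l (J j) *
    t (Function.update J j l) = 0
  rw [sum_split σ hσ]
  have hne : ∀ j, j < σ j → σ j ≠ j := fun j h h' => by rw [h'] at h; exact lt_irrefl _ h
  have hpair : ∑ j with j < σ j,
      ((∑ l, (fromBlocks 0 0 0 y : Matrix (Fin s ⊕ Fin n) (Fin s ⊕ Fin n) K) l (J j) *
        t (Function.update J j l)) +
      ∑ l, (fromBlocks 0 0 0 y : Matrix (Fin s ⊕ Fin n) (Fin s ⊕ Fin n) K) l (J (σ j)) *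
        t (Function.update J (σ j) l)) = 0 := by
    refine Finset.sum_eq_zero fun j hj => ?_
    have hj' : j < σ j := (Finset.mem_filter.1 hj).2
    have hgj : ∀ b, g b ≠ j := fun b h => hne j hj' (by rw [← h]; exact hσg b)
    have hgσ : ∀ b, g b ≠ σ j := fun b h => hne j hj' (by
      have h1 := hσg b
      rw [h, hσ] at h1
      exact h1.symm)
    set C : K := (∏ j with σ j = j ∧ ∀ b, g b ≠ j, Sum.elim (ν j) (fun _ => 0) (J j)) *
      (∏ i ∈ (univ.filter fun j => j < σ j).erase j,
        if Sum.elim d c (J i) = a i then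
          (Matrix.fromBlocks 0 0 0 Q : Matrix (Fin s ⊕ Fin n) (Fin s ⊕ Fin n) K)
            (J i) (J (σ i)) else 0) *
      dt c S Sum.inr g J with hC
    have t1 : ∀ l, t (Function.update J j l) = C * (if Sum.elim d c l = a j then
        (fromBlocks 0 0 0 Q : Matrix (Fin s ⊕ Fin n) (Fin s ⊕ Fin n) K) l (J (σ j)) else 0) := by
      intro l
      rw [ht, dt_other c S g J j hgj, ← Finset.mul_prod_erase _ _ hj, Function.update_self,
        Function.update_of_ne (hne j hj'), hC]
      have p1 : (∏ i with σ i = i ∧ ∀ b, g b ≠ i,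
          Sum.elim (ν i) (fun _ => 0) (Function.update J j l i)) =
          ∏ i with σ i = i ∧ ∀ b, g b ≠ i, Sum.elim (ν i) (fun _ => 0) (J i) := by
        refine Finset.prod_congr rfl fun i hi => ?_
        have hi' := (Finset.mem_filter.1 hi).2.1
        rw [Function.update_of_ne (fun h => hne j hj' (by rw [← h]; exact hi'))]
      have p2 : (∏ i ∈ (univ.filter fun j => j < σ j).erase j,
          if Sum.elim d c (Function.update J j l i) = a i then
            (Matrix.fromBlocks 0 0 0 Q : Matrix (Fin s ⊕ Fin n) (Fin s ⊕ Fin n) K)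
              (Function.update J j l i) (Function.update J j l (σ i)) else 0) =
          ∏ i ∈ (univ.filter fun j => j < σ j).erase j,
          if Sum.elim d c (J i) = a i then
            (Matrix.fromBlocks 0 0 0 Q : Matrix (Fin s ⊕ Fin n) (Fin s ⊕ Fin n) K)
              (J i) (J (σ i)) else 0 := by
        refine Finset.prod_congr rfl fun i hi => ?_
        rw [Finset.mem_erase, Finset.mem_filter] at hi
        have h2 : σ i ≠ j := by
          intro h
          have h3 : i = σ j := by rw [← h, hσ]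
          have h4 : i < j := by rw [← h]; exact hi.2.2
          rw [h3] at h4
          exact lt_asymm h4 hj'
        rw [Function.update_of_ne hi.1, Function.update_of_ne h2]
      rw [p1, p2]
      ring
    have t2 : ∀ l, t (Function.update J (σ j) l) = C * (if Sum.elim d c (J j) = a j then
        (fromBlocks 0 0 0 Q : Matrix (Fin s ⊕ Fin n) (Fin s ⊕ Fin n) K) (J j) l else 0) := by
      intro l
      rw [ht, dt_other c S g J (σ j) hgσ, ← Finset.mul_prod_erase _ _ hj, Function.update_self,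
        Function.update_of_ne (hne j hj').symm, hC]
      have p1 : (∏ i with σ i = i ∧ ∀ b, g b ≠ i,
          Sum.elim (ν i) (fun _ => 0) (Function.update J (σ j) l i)) =
          ∏ i with σ i = i ∧ ∀ b, g b ≠ i, Sum.elim (ν i) (fun _ => 0) (J i) := by
        refine Finset.prod_congr rfl fun i hi => ?_
        have hi' := (Finset.mem_filter.1 hi).2.1
        rw [Function.update_of_ne (fun h => hne j hj' (by
          rw [h, hσ] at hi'
          exact hi'.symm))]
      have p2 : (∏ i ∈ (univ.filter fun j => j < σ j).erase j,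
          if Sum.elim d c (Function.update J (σ j) l i) = a i then
            (Matrix.fromBlocks 0 0 0 Q : Matrix (Fin s ⊕ Fin n) (Fin s ⊕ Fin n) K)
              (Function.update J (σ j) l i) (Function.update J (σ j) l (σ i)) else 0) =
          ∏ i ∈ (univ.filter fun j => j < σ j).erase j,
          if Sum.elim d c (J i) = a i then
            (Matrix.fromBlocks 0 0 0 Q : Matrix (Fin s ⊕ Fin n) (Fin s ⊕ Fin n) K)
              (J i) (J (σ i)) else 0 := by
        refine Finset.prod_congr rfl fun i hi => ?_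
        rw [Finset.mem_erase, Finset.mem_filter] at hi
        have h1 : i ≠ σ j := by
          intro h
          have h4 : i < σ i := hi.2.2
          rw [h, hσ] at h4
          exact lt_asymm h4 hj'
        have h2 : σ i ≠ σ j := fun h => hi.1 (by rw [← hσ i, h, hσ])
        rw [Function.update_of_ne h1, Function.update_of_ne h2]
      rw [p1, p2]
      ring
    have e1 : ∑ l, (fromBlocks 0 0 0 y : Matrix (Fin s ⊕ Fin n) (Fin s ⊕ Fin n) K) l (J j) *
        t (Function.update J j l) = C *
        ∑ l, (fromBlocks 0 0 0 y : Matrix (Fin s ⊕ Fin n) (Fin s ⊕ Fin n) K) l (J j) *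
          (if Sum.elim d c l = a j then
          (fromBlocks 0 0 0 Q : Matrix (Fin s ⊕ Fin n) (Fin s ⊕ Fin n) K) l (J (σ j)) else 0) := by
      rw [Finset.mul_sum]
      refine Finset.sum_congr rfl fun l _ => ?_
      rw [t1]
      ring
    have e2 : ∑ l, (fromBlocks 0 0 0 y : Matrix (Fin s ⊕ Fin n) (Fin s ⊕ Fin n) K) l (J (σ j)) *
        t (Function.update J (σ j) l) = C *
        ∑ l, (fromBlocks 0 0 0 y : Matrix (Fin s ⊕ Fin n) (Fin s ⊕ Fin n) K) l (J (σ j)) *
          (if Sum.elim d c (J j) = a j then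
          (fromBlocks 0 0 0 Q : Matrix (Fin s ⊕ Fin n) (Fin s ⊕ Fin n) K) (J j) l else 0) := by
      rw [Finset.mul_sum]
      refine Finset.sum_congr rfl fun l _ => ?_
      rw [t2]
      ring
    rw [e1, e2, ← mul_add, pairing c d Q y hy hs, mul_zero]
  rw [hpair, add_zero]
  rw [← Finset.sum_filter_add_sum_filter_not (univ.filter fun j => σ j = j)
    (fun j => ∀ b, g b ≠ j)]
  have hA : ∑ j ∈ (univ.filter fun j => σ j = j).filter (fun j => ∀ b, g b ≠ j),
      ∑ l, (fromBlocks 0 0 0 y : Matrix (Fin s ⊕ Fin n) (Fin s ⊕ Fin n) K) l (J j) *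
        t (Function.update J j l) = 0 := by
    refine Finset.sum_eq_zero fun j hj => Finset.sum_eq_zero fun l _ => ?_
    rw [Finset.mem_filter, Finset.mem_filter] at hj
    rcases l with l | l
    · have h1 : (fromBlocks 0 0 0 y : Matrix (Fin s ⊕ Fin n) (Fin s ⊕ Fin n) K) (Sum.inl l)
          (J j) = 0 := by
        rcases J j with w | w <;> rfl
      rw [h1, zero_mul]
    · have h1 : (∏ i with σ i = i ∧ ∀ b, g b ≠ i,
          Sum.elim (ν i) (fun _ => (0 : K)) (Function.update J j (Sum.inr l) i)) = 0 := by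
        refine Finset.prod_eq_zero (i := j) ?_ ?_
        · rw [Finset.mem_filter]
          exact ⟨mem_univ _, hj.1.2, hj.2⟩
        · rw [Function.update_self]
          rfl
      rw [ht, h1, zero_mul, zero_mul, mul_zero]
  rw [hA, zero_add]
  have hset : (univ.filter fun j => σ j = j).filter (fun j => ¬ ∀ b, g b ≠ j) =
      univ.image g := by
    ext j
    rw [Finset.mem_filter, Finset.mem_filter, Finset.mem_image]
    constructor
    · rintro ⟨-, h⟩
      push Not at h
      obtain ⟨b, hb⟩ := h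
      exact ⟨b, mem_univ _, hb⟩
    · rintro ⟨b, -, rfl⟩
      exact ⟨⟨mem_univ _, hσg b⟩, fun h => h b rfl⟩
  rw [hset, Finset.sum_image (fun x _ z _ h => hg h)]
  have hx : ∀ x l, t (Function.update J (g x) l) =
      ((∏ j with σ j = j ∧ ∀ b, g b ≠ j, Sum.elim (ν j) (fun _ => 0) (J j)) *
      (∏ j with j < σ j,
        if Sum.elim d c (J j) = a j then Matrix.fromBlocks 0 0 0 Q (J j) (J (σ j)) else 0)) *
      dt c S Sum.inr g (Function.update J (g x) l) := by
    intro x l
    rw [ht]
    congr 2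
    · refine Finset.prod_congr rfl fun i hi => ?_
      rw [Function.update_of_ne (fun h => (Finset.mem_filter.1 hi).2.2 x h.symm)]
    · refine Finset.prod_congr rfl fun i hi => ?_
      have hi' := (Finset.mem_filter.1 hi).2
      have h1 : i ≠ g x := fun h => hne i hi' (by rw [h]; exact hσg x)
      have h2 : σ i ≠ g x := fun h => h1 (by rw [← hσ i, h, hσg])
      rw [Function.update_of_ne h1, Function.update_of_ne h2]
  have hfin : ∑ x, ∑ l, (fromBlocks 0 0 0 y : Matrix (Fin s ⊕ Fin n) (Fin s ⊕ Fin n) K) l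
      (J (g x)) * t (Function.update J (g x) l) =
      ((∏ j with σ j = j ∧ ∀ b, g b ≠ j, Sum.elim (ν j) (fun _ => 0) (J j)) *
      (∏ j with j < σ j,
        if Sum.elim d c (J j) = a j then Matrix.fromBlocks 0 0 0 Q (J j) (J (σ j)) else 0)) *
      ∑ x, ∑ l, (fromBlocks 0 0 0 y : Matrix (Fin s ⊕ Fin n) (Fin s ⊕ Fin n) K) l (J (g x)) *
        (dt c S Sum.inr g (Function.update J (g x) l) : K) := by
    rw [Finset.mul_sum]
    refine Finset.sum_congr rfl fun x _ => ?_
    rw [Finset.mul_sum]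
    refine Finset.sum_congr rfl fun l _ => ?_
    rw [hx]
    ring
  rw [hfin, dt_sum c S g hg J hy h0, mul_zero]

end CND

open CND in
theorem cnd : S_cnd := by
  intro K _ n r s m c d a Q y _ hy _ hs h0 t ht
  induction ht using Submodule.span_induction with
  | mem t ht =>
    obtain ⟨σ, ν, S, g, hσ, -, -, hg, hσg, -, ht⟩ := ht
    exact gen c d a Q y hy hs h0 t σ ν S g hσ hg hσg ht
  | zero =>
    funext J
    show ∑ j, ∑ l, (fromBlocks 0 0 0 y : Matrix (Fin s ⊕ Fin n) (Fin s ⊕ Fin n) K) l (J j) *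
      (0 : K) = 0
    simp
  | add t u _ _ h1 h2 =>
    funext J
    have e1 := congrFun h1 J
    have e2 := congrFun h2 J
    unfold actK at e1 e2 ⊢
    simp only [Pi.add_apply, mul_add, Finset.sum_add_distrib]
    rw [e1, e2]
    simp
  | smul k t _ h1 =>
    funext J
    have e1 := congrFun h1 J
    unfold actK at e1 ⊢
    have e2 : ∀ (j : Fin m) (l : Fin s ⊕ Fin n),
        (fromBlocks 0 0 0 y : Matrix (Fin s ⊕ Fin n) (Fin s ⊕ Fin n) K) l (J j) *
          (k • t) (Function.update J j l) =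
        k * ((fromBlocks 0 0 0 y : Matrix (Fin s ⊕ Fin n) (Fin s ⊕ Fin n) K) l (J j) *
          t (Function.update J j l)) := by
      intro j l
      rw [Pi.smul_apply, smul_eq_mul]
      ring
    simp only [e2, ← Finset.mul_sum]
    rw [e1]
    simp

end Pool.Agent.W863.FF
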